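import Mathlib
import Pool.Agent.H463R3.PSLn

/-!
# No uniform closure number for the non-alternating finite simple groups
-/

set_option autoImplicit false

open Matrix Matrix.SpecialLinearGroup
open scoped MatrixGroups LinearAlgebra.Projectivization

namespace Pool.Agent.Results.MP_d08dce_al.NoUniformClosure

/-- The `k`-closure of a group `G` acting on `Ω`: all permutations of `Ω` that map every
`G`-orbit on `Ω ^ k` (coordinatewise action) onto itself. -/
def kClosure (k : ℕ) (G Ω : Type*) [Group G] [MulAction G Ω] : Set (Equiv.Perm Ω) :=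
  {x | ∀ t : Fin k → Ω,
    (fun (s : Fin k → Ω) (i : Fin k) => x (s i)) '' (MulAction.orbit G t) = MulAction.orbit G t}

/-- `G` is totally `k`-closed: for every faithful action of `G` on a finite set `Ω`, the
`k`-closure of `G` is (the image of) `G` itself. -/
def TotallyClosed (k : ℕ) (G : Type) [Group G] : Prop :=
  ∀ (Ω : Type) [Finite Ω] [MulAction G Ω] [FaithfulSMul G Ω],
    kClosure k G Ω = ((MulAction.toPermHom G Ω).range : Set (Equiv.Perm Ω))

section main

variable {n : ℕ} {F : Type} [Field F]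

/-- A matrix of determinant `c ≠ 0` fixing a given proper subspace pointwise. -/
lemma exists_fix (W : Submodule F (Fin n → F)) (hW : W ≠ ⊤) (c : F) :
    ∃ D : Matrix (Fin n) (Fin n) F, D.det = c ∧ ∀ w ∈ W, D *ᵥ w = w := by
  obtain ⟨f, hf0, hfW⟩ := Submodule.exists_dual_map_eq_bot_of_lt_top (lt_top_iff_ne_top.2 hW)
    inferInstance
  obtain ⟨u, hu⟩ : ∃ u, f u ≠ 0 := by
    by_contra h
    push Not at h
    exact hf0 (LinearMap.ext h)
  set φ : Fin n → F := fun i => f (Pi.single i 1) with hφ
  have hfφ : ∀ v, f v = φ ⬝ᵥ v := by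
    intro v
    conv_lhs => rw [← Finset.univ_sum_single v]
    rw [map_sum, dotProduct]
    refine Finset.sum_congr rfl fun i _ => ?_
    have : (Pi.single i (v i) : Fin n → F) = v i • Pi.single i 1 := by
      rw [← Pi.single_smul, smul_eq_mul, mul_one]
    rw [this, map_smul, smul_eq_mul, hφ, mul_comm]
  refine ⟨1 + replicateCol Unit (((c - 1) * (f u)⁻¹) • u) * replicateRow Unit φ, ?_, ?_⟩
  · rw [det_one_add_replicateCol_mul_replicateRow, dotProduct_smul, ← hfφ, smul_eq_mul]
    field_simp
    ring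
  · intro w hw
    have h0 : f w = 0 := by
      have : f w ∈ Submodule.map f W := Submodule.mem_map_of_mem hw
      rw [hfW] at this
      simpa using this
    rw [add_mulVec, one_mulVec, ← mulVec_mulVec]
    have : replicateRow Unit φ *ᵥ w = 0 := by
      ext i
      simp [mulVec, replicateRow, ← hfφ, h0]
    rw [this, mulVec_zero, add_zero]

/-- For fewer than `n` points of the projective space, any `g ∈ GL_n` can be replaced by an
element of `SL_n`. -/
lemma exists_SL (g : GL (Fin n) F) {k : ℕ} (hk : k < n) (t : Fin k → ℙ F (Fin n → F)) :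
    ∃ h : Matrix.SpecialLinearGroup (Fin n) F, ∀ i, h • t i = g • t i := by
  set W : Submodule F (Fin n → F) := Submodule.span F (Set.range fun i => (t i).rep) with hW
  have hW' : W ≠ ⊤ := by
    intro h
    have h1 := finrank_range_le_card (R := F) (fun i => (t i).rep)
    rw [Set.finrank, ← hW, h, finrank_top, Module.finrank_fin_fun, Fintype.card_fin] at h1
    omega
  obtain ⟨D, hD, hfix⟩ := exists_fix W hW' (g.1.det)⁻¹
  have hdet : (g.1 * D).det = 1 := by
    rw [det_mul, hD, mul_inv_cancel₀]
    exact (Matrix.isUnit_iff_isUnit_det _).1 g.isUnit |>.ne_zero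
  set h : Matrix.SpecialLinearGroup (Fin n) F := ⟨g.1 * D, hdet⟩ with hh
  refine ⟨h, fun i => ?_⟩
  have hrep : (t i).rep ∈ W := Submodule.subset_span ⟨i, rfl⟩
  have h1 : h • (t i).rep = g • (t i).rep := by
    change (g.1 * D) *ᵥ (t i).rep = g.1 *ᵥ (t i).rep
    rw [← mulVec_mulVec, hfix _ hrep]
  have e : t i = Projectivization.mk F (t i).rep (t i).rep_nonzero := (Projectivization.mk_rep _).symm
  rw [e, Projectivization.smul_mk, Projectivization.smul_mk, Projectivization.mk_eq_mk_iff']
  exact ⟨1, by rw [one_smul, h1]⟩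

/-- If `g ∈ GL_n` and `h ∈ SL_n` act in the same way on the points of the projective space then
`det g` is an `n`-th power. -/
lemma det_pow (g : GL (Fin n) F) (h : Matrix.SpecialLinearGroup (Fin n) F)
    (hgh : ∀ p : ℙ F (Fin n → F), h • p = g • p) :
    ∃ b : F, g.1.det = b ^ n := by
  set m : Matrix (Fin n) (Fin n) F := h⁻¹.1 * g.1 with hm
  set f : (Fin n → F) →ₗ[F] Fin n → F := Matrix.toLin' m with hf
  obtain ⟨a, ha⟩ := f.exists_eq_smul_id_of_forall_notLinearIndependent fun (v : Fin n → F) ↦ by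
    by_cases hv : v = 0
    · simp [hv, linearIndependent_fin2]
    · have h1 := hgh (.mk F v hv)
      have h2 : (.mk F v hv : ℙ F (Fin n → F)) = h⁻¹ • (g • .mk F v hv) := by
        rw [← h1, inv_smul_smul]
      rw [Projectivization.smul_mk, Projectivization.smul_mk, Projectivization.mk_eq_mk_iff'] at h2
      obtain ⟨c, hc⟩ := h2
      have h3 : h⁻¹ • (g • v) = f v := by
        change h⁻¹.1 *ᵥ (g.1 *ᵥ v) = m *ᵥ v
        rw [mulVec_mulVec]
      rw [h3] at hc
      intro hli
      rw [LinearIndependent.pair_iff] at hli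
      have := hli 1 (-c) (by simp [hc])
      exact one_ne_zero this.1
  have hscalar : m = Matrix.scalar (Fin n) a := calc
      m = LinearMap.toMatrix' f := by
        rw [hf, LinearMap.toMatrix'_toLin']
      _ = (algebraMap F (Module.End F (Fin n → F)) a).toMatrix' := congrArg LinearMap.toMatrix' ha
      _ = Matrix.scalar (Fin n) a := LinearMap.toMatrix'_algebraMap a
  refine ⟨a, ?_⟩
  have h4 : m.det = a ^ n := by rw [hscalar]; simp
  rw [hm, det_mul, h⁻¹.2, one_mul] at h4
  exact h4

theorem not_closed [Finite F] (hn : 0 < n) {k : ℕ} (hk : k < n) (a : Fˣ)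
    (ha : ∀ b : Fˣ, b ^ n ≠ a) :
    ¬ TotallyClosed k (Matrix.ProjectiveSpecialLinearGroup (Fin n) F) := by
  intro H
  have : Nonempty (Fin n) := ⟨⟨0, hn⟩⟩
  have hfin : Finite (ℙ F (Fin n → F)) := inferInstance
  have H1 := H (ℙ F (Fin n → F))
  obtain ⟨g, hg⟩ := GeneralLinearGroup.det_surjective (n := Fin n) a
  have key : MulAction.toPerm g ∈
      kClosure k (Matrix.ProjectiveSpecialLinearGroup (Fin n) F) (ℙ F (Fin n → F)) := by
    intro t
    apply Set.Subset.antisymm
    · rintro _ ⟨s, hs, rfl⟩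
      obtain ⟨h, hh⟩ := exists_SL g hk s
      have : (fun i => MulAction.toPerm g (s i)) =
          (h : Matrix.ProjectiveSpecialLinearGroup (Fin n) F) • s := by
        ext1 i
        rw [Pi.smul_apply, Matrix.ProjectiveSpecialLinearGroup.smul_proj_mk, hh i]
        rfl
      change (fun i => MulAction.toPerm g (s i)) ∈ _
      rw [this]
      exact MulAction.mem_orbit_of_mem_orbit _ hs
    · intro s hs
      obtain ⟨h, hh⟩ := exists_SL g⁻¹ hk s
      refine ⟨(h : Matrix.ProjectiveSpecialLinearGroup (Fin n) F) • s,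
        MulAction.mem_orbit_of_mem_orbit _ hs, ?_⟩
      ext1 i
      change g • (((h : Matrix.ProjectiveSpecialLinearGroup (Fin n) F) • s) i) = s i
      rw [Pi.smul_apply, Matrix.ProjectiveSpecialLinearGroup.smul_proj_mk, hh i, smul_inv_smul]
  rw [H1] at key
  obtain ⟨γ, hγ⟩ := key
  obtain ⟨h, rfl⟩ := QuotientGroup.mk_surjective γ
  obtain ⟨b, hb⟩ := det_pow g h (fun p => by
    have := congrArg (fun x : Equiv.Perm _ => x p) hγ
    exact this)
  have hb0 : b ≠ 0 := by
    rintro rfl
    rw [zero_pow hn.ne'] at hb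
    have := (Matrix.isUnit_iff_isUnit_det _).1 g.isUnit |>.ne_zero
    exact this hb
  apply ha (Units.mk0 b hb0)
  rw [← hg]
  ext
  rw [Units.val_pow_eq_pow_val, Units.val_mk0, ← hb]
  rfl

/-- Eventually `2 p^N < p!`. -/
lemma exists_prime (N : ℕ) : ∃ p : ℕ, p.Prime ∧ p ≠ 2 ∧ 2 * p ^ N < p.factorial := by
  have h1 : Filter.Tendsto (fun x : ℕ => (x : ℝ) ^ N / 2 ^ x) Filter.atTop (nhds 0) :=
    tendsto_pow_const_div_const_pow_of_one_lt N (by norm_num)
  have h2 : ∀ᶠ x : ℕ in Filter.atTop, (x : ℝ) ^ N / 2 ^ x < 1 / 8 :=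
    h1.eventually_lt_const (by norm_num)
  obtain ⟨M, hM⟩ := Filter.eventually_atTop.1 h2
  obtain ⟨p, hpM, hp⟩ := Nat.exists_infinite_primes (M + 3)
  refine ⟨p, hp, by omega, ?_⟩
  have h3 := hM p (by omega)
  have h4 : (p : ℝ) ^ N * 8 < 2 ^ p := by
    rw [div_lt_div_iff₀ (by positivity) (by norm_num)] at h3
    linarith
  have h5 : p ^ N * 8 < 2 ^ p := by exact_mod_cast h4
  have h6 : 2 ^ (p - 1) ≤ p.factorial := by
    have : ∀ m : ℕ, 2 ^ m ≤ (m + 1).factorial := by
      intro m
      induction m with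
      | zero => simp
      | succ m ih =>
        rw [pow_succ, Nat.factorial_succ (m + 1)]
        nlinarith [Nat.factorial_pos (m + 1)]
    have h7 := this (p - 1)
    rwa [Nat.sub_add_cancel hp.one_le] at h7
  have h8 : 2 ^ p = 2 * 2 ^ (p - 1) := by
    rw [← pow_succ', Nat.sub_add_cancel hp.one_le]
  omega

theorem not_alternating (p : ℕ) [Fact p.Prime] (hn : 2 ≤ n) (hp : 2 * p ^ (n * n) < p.factorial)
    (m : ℕ) :
    IsEmpty (Matrix.ProjectiveSpecialLinearGroup (Fin n) (ZMod p) ≃* alternatingGroup (Fin m)) := by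
  refine ⟨fun e => ?_⟩
  have hprime : p.Prime := Fact.out
  have : Nontrivial (Fin n) := Fin.nontrivial_iff_two_le.2 hn
  have hcard1 : Nat.card (Matrix.ProjectiveSpecialLinearGroup (Fin n) (ZMod p)) ≤ p ^ (n * n) := by
    have h1 : Nat.card (Matrix.ProjectiveSpecialLinearGroup (Fin n) (ZMod p)) ≤
        Nat.card (Matrix.SpecialLinearGroup (Fin n) (ZMod p)) :=
      Nat.card_le_card_of_surjective _ (QuotientGroup.mk_surjective)
    have h2 : Nat.card (Matrix.SpecialLinearGroup (Fin n) (ZMod p)) ≤
        Nat.card (Matrix (Fin n) (Fin n) (ZMod p)) :=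
      Nat.card_le_card_of_injective (fun g => g.1) Subtype.val_injective
    have h3 : Nat.card (Matrix (Fin n) (Fin n) (ZMod p)) = p ^ (n * n) := by
      have h4 : Nat.card (Fin n → Fin n → ZMod p) = p ^ (n * n) := by
        rw [Nat.card_fun, Nat.card_fun, Nat.card_fin, Nat.card_zmod, ← pow_mul]
      exact h4
    omega
  have hdvd : p ∣ Nat.card (Matrix.ProjectiveSpecialLinearGroup (Fin n) (ZMod p)) := by
    obtain ⟨i, j, hij⟩ := exists_pair_ne (Fin n)
    set T : Matrix.ProjectiveSpecialLinearGroup (Fin n) (ZMod p) :=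
      QuotientGroup.mk (SpecialLinearGroup.transvection hij (1 : ZMod p)) with hT
    have hpow : ∀ r : ℕ, (SpecialLinearGroup.transvection hij (1 : ZMod p)) ^ r =
        SpecialLinearGroup.transvection hij (r : ZMod p) := by
      intro r
      induction r with
      | zero =>
        apply Subtype.ext
        simp
      | succ r ih =>
        rw [pow_succ, ih]
        apply Subtype.ext
        simp [Matrix.SpecialLinearGroup.transvection_coe, mul_add, add_mul, hij.symm,
          Matrix.single_mul_single_of_ne, Matrix.single_add]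
        abel
    have h1 : T ^ p = 1 := by
      rw [hT, ← QuotientGroup.mk_pow, hpow, QuotientGroup.eq_one_iff, transvection_mem_center_iff]
      simp
    have h2 : T ≠ 1 := by
      rw [hT, Ne, QuotientGroup.eq_one_iff, transvection_mem_center_iff]
      exact one_ne_zero
    have h3 := orderOf_dvd_natCard T
    rwa [orderOf_eq_prime h1 h2] at h3
  rw [Nat.card_congr e.toEquiv] at hdvd hcard1
  by_cases hm : m < 2
  · have : Subsingleton (Fin m) := Fin.subsingleton_iff_le_one.2 (by omega)
    have h1 : Nat.card (alternatingGroup (Fin m)) = 1 := by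
      have : Subsingleton (Equiv.Perm (Fin m)) := inferInstance
      exact Nat.card_unique
    rw [h1] at hdvd
    exact hprime.one_lt.ne' (Nat.dvd_one.1 hdvd)
  · have : Nontrivial (Fin m) := Fin.nontrivial_iff_two_le.2 (by omega)
    have h1 : 2 * Nat.card (alternatingGroup (Fin m)) = m.factorial := by
      rw [Nat.card_eq_fintype_card, two_mul_card_alternatingGroup, Fintype.card_perm,
        Fintype.card_fin]
    have h2 : p ∣ m.factorial := by
      rw [← h1]
      exact Dvd.dvd.mul_left hdvd 2
    have h3 : p ≤ m := (hprime.dvd_factorial).1 h2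
    have h4 := Nat.factorial_le h3
    omega

end main

/-- There is no integer `k` such that all finite simple groups that are not alternating groups
are totally `k`-closed. -/
theorem result :
    (∀ (n : ℕ) (F : Type) [Field F] [Finite F], 3 ≤ n → (∃ a : Fˣ, ∀ b : Fˣ, b ^ n ≠ a) →
      IsSimpleGroup (Matrix.ProjectiveSpecialLinearGroup (Fin n) F) ∧
      ∀ k < n, ¬ TotallyClosed k (Matrix.ProjectiveSpecialLinearGroup (Fin n) F)) ∧
    ∀ k : ℕ, ∃ (G : Type) (_ : Group G), Finite G ∧ IsSimpleGroup G ∧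
      (∀ m : ℕ, IsEmpty (G ≃* alternatingGroup (Fin m))) ∧ ¬ TotallyClosed k G := by
  refine ⟨fun n F _ _ hn ⟨a, ha⟩ => ⟨?_, fun k hk => not_closed (by omega) hk a ha⟩, fun k => ?_⟩
  · exact Pool.Agent.H463R3.PSLn.isSimpleGroup_PSL (by simpa using hn)
  · set n := 2 * (k + 2) with hn
    obtain ⟨p, hp, hp2, hbig⟩ := exists_prime (n * n)
    have : Fact p.Prime := ⟨hp⟩
    refine ⟨Matrix.ProjectiveSpecialLinearGroup (Fin n) (ZMod p), inferInstance, inferInstance,
      Pool.Agent.H463R3.PSLn.isSimpleGroup_PSL (by simp; omega), 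
      not_alternating p (by omega) hbig, ?_⟩
    have hchar : ringChar (ZMod p) ≠ 2 := by
      rw [ZMod.ringChar_zmod_n]; exact hp2
    obtain ⟨a, ha⟩ := FiniteField.exists_nonsquare hchar
    have ha0 : a ≠ 0 := by
      rintro rfl
      exact ha (IsSquare.zero)
    refine not_closed (by omega) (by omega) (Units.mk0 a ha0) ?_
    intro b hb
    apply ha
    refine ⟨(b : ZMod p) ^ (k + 2), ?_⟩
    have := congrArg (Units.val) hb
    rw [Units.val_mk0, Units.val_pow_eq_pow_val, hn] at this
    rw [← this]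
    ring

end Pool.Agent.Results.MP_d08dce_al.NoUniformClosure
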